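import Pool.Agent.MP_d722ac_gt.H21.Main

set_option autoImplicit false

namespace Pool.Agent.Results.MP_d722ac_gt.EveryDirection

open MeasureTheory Set Metric

/-- Euclidean space -/
abbrev Euc (n : ℕ) : Type := EuclideanSpace ℝ (Fin n)

/-- the polar body -/
def polarBody {n : ℕ} (K : Set (Euc n)) : Set (Euc n) := {y | ∀ x ∈ K, inner ℝ x y ≤ (1 : ℝ)}

/-- the Steiner symmetrization in the direction `u` -/
def steiner {n : ℕ} (u : Euc n) (K : Set (Euc n)) : Set (Euc n) :=
  {w | ∃ (x : Euc n) (t : ℝ), inner ℝ x u = (0 : ℝ) ∧ (∃ s : ℝ, x + s • u ∈ K) ∧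
    ENNReal.ofReal |t| ≤ volume {s : ℝ | x + s • u ∈ K} / 2 ∧ w = x + t • u}

lemma steiner_eq {n : ℕ} (u : Euc n) (hu : ‖u‖ = 1) (K : Set (Euc n)) :
    steiner u K = MP_d722ac_gt.H93.stein K u := by
  have hu' : inner ℝ u u = (1 : ℝ) := by rw [real_inner_self_eq_norm_sq, hu]; norm_num
  have key : ∀ (t : ℝ) (v : ENNReal), ENNReal.ofReal |t| ≤ v / 2 ↔ ENNReal.ofReal (2 * |t|) ≤ v := by
    intro t v
    rw [ENNReal.le_div_iff_mul_le (by simp) (by simp), ENNReal.ofReal_mul (by norm_num), mul_comm]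
    simp
  ext w
  constructor
  · rintro ⟨x, t, h1, h2, h3, rfl⟩
    have e : inner ℝ (x + t • u) u = t := by
      rw [inner_add_left, real_inner_smul_left, h1, hu']; ring
    simp only [MP_d722ac_gt.H93.stein, mem_ofPred_eq, e, add_sub_cancel_right]
    exact ⟨h2, (key _ _).mp h3⟩
  · rintro ⟨h2, h3⟩
    refine ⟨w - (inner ℝ w u : ℝ) • u, inner ℝ w u, ?_, h2, (key _ _).mpr h3, by simp⟩
    rw [inner_sub_left, real_inner_smul_left, hu']; ring

lemma polar_pos {n : ℕ} (K : Set (Euc n)) (h : IsCompact K) : volume (polarBody K) ≠ 0 := by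
  obtain ⟨r, hr, h1⟩ := h.isBounded.subset_closedBall_lt 0 0
  exact ((measure_ball_pos volume _ (inv_pos.2 hr)).trans_le
    (measure_mono (MP_d722ac_gt.H93.ball_subset_pol K r hr h1))).ne'

lemma polar_fin {n : ℕ} (K : Set (Euc n)) (hc : Convex ℝ K) (hi : (interior K).Nonempty)
    (hn : ∀ x ∈ K, -x ∈ K) : volume (polarBody K) ≠ ⊤ := by
  obtain ⟨x, hx⟩ := hi
  have h0 : (0 : Euc n) ∈ interior K := by
    have := hc.combo_interior_self_mem_interior hx (hn x (interior_subset hx))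
      (by norm_num : (0 : ℝ) < 1 / 2) (by norm_num : (0 : ℝ) ≤ 1 / 2) (by norm_num)
    simpa using this
  obtain ⟨r, hr, h1⟩ := nhds_basis_closedBall.mem_iff.1 (mem_interior_iff_mem_nhds.1 h0)
  exact ((measure_mono (MP_d722ac_gt.H93.pol_subset_ball K r hr h1)).trans_lt
    measure_closedBall_lt_top).ne

theorem result : ∀ N : ℕ, 1 ≤ N → ∃ K : Set (Euc (N * N)),
    IsCompact K ∧ Convex ℝ K ∧ (interior K).Nonempty ∧ K = -K ∧
      ∀ (T : Euc (N * N) ≃ₗ[ℝ] Euc (N * N)) (μ : Measure (sphere (0 : Euc (N * N)) 1)),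
        IsProbabilityMeasure μ →
        ENNReal.ofReal (√N / 1000) * volume (polarBody (T '' K)) <
          ∫⁻ u, volume (polarBody (steiner (u : Euc (N * N)) (T '' K))) ∂μ := by
  intro N hN
  obtain ⟨K, h1, h2, h3, h4, h5⟩ := MP_d722ac_gt.H21.main N hN
  refine ⟨K, h1, h2, h3, ?_, fun T μ hμ => ?_⟩
  · ext x
    exact ⟨fun h => h4 x h, fun h => by simpa using h4 (-x) h⟩
  · have c1 : IsCompact (T '' K) := h1.image T.toContinuousLinearEquiv.continuous
    have c2 : Convex ℝ (T '' K) := h2.linear_image T.toLinearMap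
    have c3 : (interior (T '' K)).Nonempty := by
      have e := T.toContinuousLinearEquiv.toHomeomorph.image_interior K
      exact e ▸ h3.image _
    have c4 : ∀ x ∈ T '' K, -x ∈ T '' K := by
      rintro _ ⟨x, hx, rfl⟩
      exact ⟨-x, h4 x hx, map_neg _ _⟩
    have hs : 0 < √(N : ℝ) := Real.sqrt_pos.2 (by exact_mod_cast hN)
    calc ENNReal.ofReal (√N / 1000) * volume (polarBody (T '' K))
        < ENNReal.ofReal (√N / 768) * volume (polarBody (T '' K)) := by
          refine ENNReal.mul_lt_mul_left (polar_pos _ c1) (polar_fin _ c2 c3 c4) ?_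
          rw [ENNReal.ofReal_lt_ofReal_iff (by positivity)]
          linarith
      _ = ∫⁻ _, ENNReal.ofReal (√N / 768) * volume (polarBody (T '' K)) ∂μ := by simp
      _ ≤ _ := by
          refine lintegral_mono fun u => ?_
          have hu := mem_sphere_zero_iff_norm.mp u.2
          rw [steiner_eq _ hu]
          exact h5 T u hu

end Pool.Agent.Results.MP_d722ac_gt.EveryDirection
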